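import Mathlib

/-!
# MP_aedb6c_co: the maximum of (diameter) / (average distance) is attained by a balanced bug

For every `n ≥ 3` there is a balanced bug on `n` vertices whose ratio of diameter and average
distance is at least the ratio of every connected graph on `n` vertices.

Proof. Let `G` be connected of diameter `D ≥ 2`, let `v_0, ..., v_D` be a shortest path between two
vertices of distance `D`, and let `r = n - D - 1` be the number of the other vertices. For every
vertex `x` outside the path `d(x, v_j) + d(x, v_{D-j}) ≥ max(|D - 2 j|, 2)`. Adding up these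
inequalities we find that the sum of the distances of `x` to the path is at least the sum for a
vertex whose distance to `v_j` is `|j - c|` for `j ≠ c` and `1` for `j = c`, with `c = ⌊D / 2⌋`. The
distances between the other vertices are at least `1`. All these bounds are attained by the balanced
bug of diameter `D`, which is the path with the vertex `v_c` replaced by a clique. The graphs of
diameter `1` are worse than the bug of diameter `2`.
-/

set_option autoImplicit false

namespace Pool.Agent.Results.MP_aedb6c_co.BalancedBugs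

open Finset

/-- The average distance `\bar l` of a finite graph: the mean of `d(u, v)` over the pairs of distinct
vertices. -/
noncomputable def avgDist {V : Type} [Fintype V] [DecidableEq V] (G : SimpleGraph V) : ℝ :=
  (∑ p ∈ (univ : Finset V).offDiag, (G.dist p.1 p.2 : ℝ)) /
    ((Fintype.card V : ℝ) * ((Fintype.card V : ℝ) - 1))

/-- The vertices of the bug: the vertices of the complete graph `K_p`, the `k₁` vertices of the first
path and the `k₂` vertices of the second path. -/
abbrev BugV (p k₁ k₂ : ℕ) : Type := Fin p ⊕ (Fin k₁ ⊕ Fin k₂)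

/-- The adjacency relation of the bug. The vertices `u` and `v` of the complete graph are the
vertices `0` and `1`; the first vertex `0` of the first path is joined to `u`, and the first vertex
`0` of the second path is joined to `v`. -/
def bugAdj (p k₁ k₂ : ℕ) : BugV p k₁ k₂ → BugV p k₁ k₂ → Prop
  | .inl i, .inl j => i ≠ j ∧ ¬ (i.val = 0 ∧ j.val = 1) ∧ ¬ (i.val = 1 ∧ j.val = 0)
  | .inl i, .inr (.inl a) => i.val = 0 ∧ a.val = 0
  | .inr (.inl a), .inl i => i.val = 0 ∧ a.val = 0
  | .inl i, .inr (.inr a) => i.val = 1 ∧ a.val = 0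
  | .inr (.inr a), .inl i => i.val = 1 ∧ a.val = 0
  | .inr (.inl a), .inr (.inl b) => a.val + 1 = b.val ∨ b.val + 1 = a.val
  | .inr (.inr a), .inr (.inr b) => a.val + 1 = b.val ∨ b.val + 1 = a.val
  | .inr (.inl _), .inr (.inr _) => False
  | .inr (.inr _), .inr (.inl _) => False

/-- The bug `Bug_{p, k₁, k₂}`. -/
def bug (p k₁ k₂ : ℕ) : SimpleGraph (BugV p k₁ k₂) where
  Adj := bugAdj p k₁ k₂
  symm := ⟨by
    rintro (i | a | a) (j | b | b) h <;> simp only [bugAdj] at h ⊢
    · exact ⟨h.1.symm, fun hh => h.2.2 ⟨hh.2, hh.1⟩, fun hh => h.2.1 ⟨hh.2, hh.1⟩⟩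
    · exact h
    · exact h
    · exact h
    · exact h.symm
    · exact h
    · exact h.symm⟩
  loopless := ⟨by
    rintro (i | a | a) h <;> simp only [bugAdj] at h
    · exact h.1 rfl
    · omega
    · omega⟩

/-! ### The total distance and a path in the graph -/

/-- `|i - j|` for natural numbers -/
def ad (i j : ℕ) : ℕ := (i - j) + (j - i)

/-- the distance of `v_j` to a twin of `v_c` -/
def tw (c j : ℕ) : ℕ := ad j c + if j = c then 1 else 0

/-- the total distance of the balanced bug of diameter `D` with `r + 1` central vertices -/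
def T (D c r : ℕ) : ℕ :=
  ∑ i ∈ range (D + 1), ∑ j ∈ range (D + 1), ad i j + 2 * (r * ∑ j ∈ range (D + 1), tw c j) +
    r * (r - 1)

section split

variable {V : Type} [Fintype V] [DecidableEq V] (d : V → V → ℕ) (v : ℕ → V) (D : ℕ)

lemma split (hd : ∀ x y, d x y = d y x) (hv : Set.InjOn v (range (D + 1) : Finset ℕ)) :
    ∑ x, ∑ y, d x y =
      ∑ i ∈ range (D + 1), ∑ j ∈ range (D + 1), d (v i) (v j) +
      2 * (∑ x ∈ univ \ (range (D + 1)).image v, ∑ j ∈ range (D + 1), d x (v j)) +
      ∑ x ∈ univ \ (range (D + 1)).image v, ∑ y ∈ univ \ (range (D + 1)).image v, d x y := by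
  set P := (range (D + 1)).image v
  set Q := univ \ P
  have h1 : ∀ g : V → ℕ, ∑ x, g x = ∑ x ∈ P, g x + ∑ x ∈ Q, g x := by
    intro g
    rw [add_comm]
    exact (Finset.sum_sdiff (Finset.subset_univ P)).symm
  have h2 : ∀ g : V → ℕ, ∑ x ∈ P, g x = ∑ i ∈ range (D + 1), g (v i) := by
    intro g
    exact Finset.sum_image hv
  rw [h1]
  have e1 : ∑ x ∈ P, ∑ y, d x y = ∑ x ∈ P, ∑ y ∈ P, d x y + ∑ x ∈ Q, ∑ y ∈ P, d x y := by
    rw [show ∑ x ∈ Q, ∑ y ∈ P, d x y = ∑ x ∈ P, ∑ y ∈ Q, d x y by
      rw [Finset.sum_comm]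
      exact Finset.sum_congr rfl fun x _ => Finset.sum_congr rfl fun y _ => hd _ _]
    rw [← Finset.sum_add_distrib]
    exact Finset.sum_congr rfl fun x _ => h1 _
  have e2 : ∑ x ∈ Q, ∑ y, d x y = ∑ x ∈ Q, ∑ y ∈ P, d x y + ∑ x ∈ Q, ∑ y ∈ Q, d x y := by
    rw [← Finset.sum_add_distrib]
    exact Finset.sum_congr rfl fun x _ => h1 _
  rw [e1, e2]
  have e3 : ∑ x ∈ P, ∑ y ∈ P, d x y = ∑ i ∈ range (D + 1), ∑ j ∈ range (D + 1), d (v i) (v j) := by
    rw [h2]
    exact Finset.sum_congr rfl fun x _ => h2 _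
  have e4 : ∑ x ∈ Q, ∑ y ∈ P, d x y = ∑ x ∈ Q, ∑ j ∈ range (D + 1), d x (v j) :=
    Finset.sum_congr rfl fun x _ => h2 _
  rw [e3, e4]
  ring

lemma card_compl (hv : Set.InjOn v (range (D + 1) : Finset ℕ)) :
    (univ \ (range (D + 1)).image v).card = Fintype.card V - (D + 1) := by
  rw [Finset.card_sdiff_of_subset (Finset.subset_univ _), Finset.card_image_of_injOn hv,
    Finset.card_range, Finset.card_univ]

omit [Fintype V] in
lemma offDiag_const (Q : Finset V) : ∑ x ∈ Q, ∑ y ∈ Q, (if x = y then 0 else 1) = Q.card * (Q.card - 1) := by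
  have : ∀ x ∈ Q, ∑ y ∈ Q, (if x = y then 0 else 1) = Q.card - 1 := by
    intro x hx
    rw [← Finset.sum_erase_add _ _ hx]
    simp only [if_true, add_zero]
    rw [Finset.sum_congr rfl (g := fun _ => 1)]
    · simp [Finset.card_erase_of_mem hx]
    · intro y hy
      rw [if_neg]
      exact fun h => (Finset.ne_of_mem_erase hy) h.symm
  rw [Finset.sum_congr rfl this]
  simp

end split

/-- for `c = ⌊D / 2⌋` or `c = ⌈D / 2⌉` -/
lemma tw_add (D c j : ℕ) (hj : j ≤ D) (hc : D = 2 * c ∨ D = 2 * c + 1) :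
    tw c j + tw c (D - j) = max (ad D (2 * j)) 2 := by
  unfold tw ad
  rcases hc with rfl | rfl
  · rcases lt_trichotomy j c with h | h | h
    · rw [if_neg (by omega), if_neg (by omega)]
      omega
    · subst h
      rw [if_pos rfl, if_pos (by omega)]
      omega
    · rw [if_neg (by omega), if_neg (by omega)]
      omega
  · by_cases h1 : j = c
    · subst h1
      rw [if_pos rfl, if_neg (by omega)]
      omega
    · by_cases h2 : j = c + 1
      · subst h2
        rw [if_neg (by omega), if_pos (by omega)]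
        omega
      · rw [if_neg h1, if_neg (by omega)]
        omega

section lower

variable {V : Type} [Fintype V] [DecidableEq V]

/-- The lower bound for the sum of the distances. -/
lemma lower (G : SimpleGraph V) (hG : G.Connected) (D c : ℕ) (hD : G.diam = D)
    (hc : D = 2 * c ∨ D = 2 * c + 1) :
    D + 1 ≤ Fintype.card V ∧ T D c (Fintype.card V - (D + 1)) ≤ ∑ x, ∑ y, G.dist x y := by
  classical
  have := hG.nonempty
  have hne : G.ediam ≠ ⊤ := SimpleGraph.connected_iff_ediam_ne_top.mp hG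
  obtain ⟨x0, y0, hxy⟩ := G.exists_dist_eq_diam
  rw [hD] at hxy
  obtain ⟨p, hp⟩ := hG.exists_walk_length_eq_dist x0 y0
  rw [hxy] at hp
  set v : ℕ → V := p.getVert
  have hstep : ∀ i, i < D → G.dist (v i) (v (i + 1)) ≤ 1 := by
    intro i hi
    have := p.adj_getVert_succ (i := i) (by omega)
    exact (SimpleGraph.dist_eq_one_iff_adj.mpr this).le
  have hup : ∀ k i, i + k ≤ D → G.dist (v i) (v (i + k)) ≤ k := by
    intro k
    induction k with
    | zero => intro i _; simp
    | succ k ih =>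
      intro i hi
      have h1 := ih i (by omega)
      have h2 := hstep (i + k) (by omega)
      have h3 := hG.dist_triangle (u := v i) (v := v (i + k)) (w := v (i + k + 1))
      have : i + (k + 1) = i + k + 1 := by ring
      rw [this]
      omega
  have hv0 : v 0 = x0 := p.getVert_zero
  have hvD : v D = y0 := by rw [← hp]; exact p.getVert_length
  have hdist : ∀ i j, i ≤ j → j ≤ D → G.dist (v i) (v j) = j - i := by
    intro i j hij hj
    have h1 := hup (j - i) i (by omega)
    have e1 : i + (j - i) = j := by omega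
    rw [e1] at h1
    have h2 := hup i 0 (by omega)
    rw [zero_add] at h2
    have h3 := hup (D - j) j (by omega)
    have e3 : j + (D - j) = D := by omega
    rw [e3] at h3
    have h4 := hG.dist_triangle (u := v 0) (v := v i) (w := v D)
    have h5 := hG.dist_triangle (u := v i) (v := v j) (w := v D)
    have h6 : G.dist (v 0) (v D) = D := by rw [hv0, hvD, hxy]
    omega
  have hdist' : ∀ i j, i ≤ D → j ≤ D → G.dist (v i) (v j) = ad i j := by
    intro i j hi hj
    rcases le_total i j with h | h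
    · rw [hdist i j h hj]; unfold ad; omega
    · rw [SimpleGraph.dist_comm, hdist j i h hi]; unfold ad; omega
  have hinj : Set.InjOn v (range (D + 1) : Finset ℕ) := by
    intro i hi j hj hij
    simp only [coe_range, Set.mem_Iio] at hi hj
    have := hdist' i j (by omega) (by omega)
    rw [hij, SimpleGraph.dist_self] at this
    unfold ad at this
    omega
  have hcard : D + 1 ≤ Fintype.card V := by
    have := Finset.card_le_univ ((range (D + 1)).image v)
    rwa [Finset.card_image_of_injOn hinj, Finset.card_range] at this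
  refine ⟨hcard, ?_⟩
  rw [split (fun x y => G.dist x y) v D (fun x y => SimpleGraph.dist_comm) hinj]
  unfold T
  set Q := univ \ (range (D + 1)).image v
  have hQ : Q.card = Fintype.card V - (D + 1) := card_compl v D hinj
  rw [← hQ]
  have b1 : ∑ i ∈ range (D + 1), ∑ j ∈ range (D + 1), ad i j =
      ∑ i ∈ range (D + 1), ∑ j ∈ range (D + 1), G.dist (v i) (v j) := by
    refine Finset.sum_congr rfl fun i hi => Finset.sum_congr rfl fun j hj => ?_
    rw [Finset.mem_range] at hi hj
    exact (hdist' i j (by omega) (by omega)).symm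
  have b2 : Q.card * ∑ j ∈ range (D + 1), tw c j ≤ ∑ x ∈ Q, ∑ j ∈ range (D + 1), G.dist x (v j) := by
    rw [← smul_eq_mul, ← Finset.sum_const]
    refine Finset.sum_le_sum fun x hx => ?_
    have hxv : ∀ j, j ≤ D → 1 ≤ G.dist x (v j) := by
      intro j hj
      have : x ≠ v j := by
        rintro rfl
        rw [Finset.mem_sdiff] at hx
        exact hx.2 (Finset.mem_image.mpr ⟨j, Finset.mem_range.mpr (by omega), rfl⟩)
      have := hG.pos_dist_of_ne this
      omega
    have r1 : ∑ j ∈ range (D + 1), G.dist x (v j) = ∑ j ∈ range (D + 1), G.dist x (v (D - j)) := by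
      rw [← Finset.sum_range_reflect]
      exact Finset.sum_congr rfl fun j _ => by congr 2
    have r2 : ∑ j ∈ range (D + 1), tw c j = ∑ j ∈ range (D + 1), tw c (D - j) := by
      rw [← Finset.sum_range_reflect]
      exact Finset.sum_congr rfl fun j _ => by congr 1
    have r3 : ∑ j ∈ range (D + 1), tw c j + ∑ j ∈ range (D + 1), tw c (D - j) ≤
        ∑ j ∈ range (D + 1), G.dist x (v j) + ∑ j ∈ range (D + 1), G.dist x (v (D - j)) := by
      rw [← Finset.sum_add_distrib, ← Finset.sum_add_distrib]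
      refine Finset.sum_le_sum fun j hj => ?_
      rw [Finset.mem_range] at hj
      rw [tw_add D c j (by omega) hc]
      have t1 := hG.dist_triangle (u := v j) (v := x) (w := v (D - j))
      rw [SimpleGraph.dist_comm (u := v j) (v := x), hdist' j (D - j) (by omega) (by omega)] at t1
      have t2 := hxv j (by omega)
      have t3 := hxv (D - j) (by omega)
      unfold ad at t1 ⊢
      omega
    omega
  have b3 : Q.card * (Q.card - 1) ≤ ∑ x ∈ Q, ∑ y ∈ Q, G.dist x y := by
    rw [← offDiag_const]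
    refine Finset.sum_le_sum fun x _ => Finset.sum_le_sum fun y _ => ?_
    split_ifs with h
    · exact Nat.zero_le _
    · have := hG.pos_dist_of_ne h
      omega
  have b2' := Nat.mul_le_mul_left 2 b2
  linarith [b1, b2', b3]

end lower

/-! ### The bugs -/

section bugs

variable (p k₁ k₂ : ℕ)

/-- The position of a vertex of the bug on the diametral path. -/
def pos : BugV p k₁ k₂ → ℤ
  | .inl i => if i.val = 0 then -1 else if i.val = 1 then 1 else 0
  | .inr (.inl a) => -2 - a.val
  | .inr (.inr a) => 2 + a.val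

/-- The vertices of the diametral path through the vertex `2` of `K_p`. -/
def good : BugV p k₁ k₂ → Prop
  | .inl i => i.val ≤ 2
  | .inr _ => True

instance : DecidablePred (good p k₁ k₂) := fun x => match x with
  | .inl i => inferInstanceAs (Decidable (i.val ≤ 2))
  | .inr _ => inferInstanceAs (Decidable True)

variable {p k₁ k₂}

lemma adj_iff (x y : BugV p k₁ k₂) :
    (bug p k₁ k₂).Adj x y ↔ x ≠ y ∧ (pos p k₁ k₂ x - pos p k₁ k₂ y).natAbs ≤ 1 := by
  show bugAdj p k₁ k₂ x y ↔ _
  rcases x with i | a | a <;> rcases y with j | b | b <;> simp only [bugAdj, pos, ne_eq,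
    Sum.inl.injEq, Sum.inr.injEq, reduceCtorEq, not_false_eq_true, true_and, Fin.ext_iff]
  · split_ifs <;> omega
  · split_ifs <;> omega
  · split_ifs <;> omega
  · split_ifs <;> omega
  · omega
  · simp only [false_iff]
    omega
  · split_ifs <;> omega
  · simp only [false_iff]
    omega
  · omega

lemma pos_range (_hp : 3 ≤ p) (x : BugV p k₁ k₂) :
    -(k₁ + 1 : ℤ) ≤ pos p k₁ k₂ x ∧ pos p k₁ k₂ x ≤ k₂ + 1 := by
  rcases x with i | a | a <;> simp only [pos]
  · split_ifs <;> omega
  · have := a.isLt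
    omega
  · have := a.isLt
    omega

lemma exists_pos (hp : 3 ≤ p) (z : ℤ) (h1 : -(k₁ + 1 : ℤ) ≤ z) (h2 : z ≤ k₂ + 1) :
    ∃ x, good p k₁ k₂ x ∧ pos p k₁ k₂ x = z := by
  rcases lt_trichotomy z 0 with h | h | h
  · by_cases h3 : z = -1
    · exact ⟨.inl ⟨0, by omega⟩, by simp [good], by simp [pos, h3]⟩
    · refine ⟨.inr (.inl ⟨(-2 - z).toNat, by omega⟩), trivial, ?_⟩
      simp only [pos]
      omega
  · exact ⟨.inl ⟨2, by omega⟩, by simp [good], by simp [pos, h]⟩
  · by_cases h3 : z = 1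
    · exact ⟨.inl ⟨1, by omega⟩, by simp [good], by simp [pos, h3]⟩
    · refine ⟨.inr (.inr ⟨(z - 2).toNat, by omega⟩), trivial, ?_⟩
      simp only [pos]
      omega

lemma good_inj (x y : BugV p k₁ k₂) (hx : good p k₁ k₂ x) (hy : good p k₁ k₂ y)
    (h : pos p k₁ k₂ x = pos p k₁ k₂ y) : x = y := by
  rcases x with i | a | a <;> rcases y with j | b | b <;> simp only [good, pos] at hx hy h <;>
    simp only [Sum.inl.injEq, Sum.inr.injEq, reduceCtorEq, Fin.ext_iff]
  · split_ifs at h <;> omega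
  · split_ifs at h <;> omega
  · split_ifs at h <;> omega
  · split_ifs at h <;> omega
  · omega
  · omega
  · split_ifs at h <;> omega
  · omega
  · omega

/-- the distance from the positions -/
def gd (x y : BugV p k₁ k₂) : ℕ :=
  (pos p k₁ k₂ x - pos p k₁ k₂ y).natAbs + if pos p k₁ k₂ x = pos p k₁ k₂ y ∧ x ≠ y then 1 else 0

lemma exists_walk (hp : 3 ≤ p) (m : ℕ) : ∀ x y : BugV p k₁ k₂,
    (pos p k₁ k₂ x - pos p k₁ k₂ y).natAbs = m →
    ∃ w : (bug p k₁ k₂).Walk x y, w.length ≤ gd x y := by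
  induction m with
  | zero =>
    intro x y h
    have h' : pos p k₁ k₂ x = pos p k₁ k₂ y := by omega
    by_cases hxy : x = y
    · subst hxy
      exact ⟨.nil, by simp⟩
    · refine ⟨.cons ((adj_iff x y).mpr ⟨hxy, by omega⟩) .nil, ?_⟩
      simp [gd, h', hxy]
  | succ m ih =>
    intro x y h
    have hne : pos p k₁ k₂ x ≠ pos p k₁ k₂ y := by
      intro h'
      rw [h'] at h
      simp at h
    have hxy : x ≠ y := fun h' => hne (by rw [h'])
    have hgd : gd x y = m + 1 := by
      unfold gd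
      rw [if_neg (fun hh => hne hh.1), h]
    rcases Nat.eq_zero_or_pos m with hm | hm
    · refine ⟨.cons ((adj_iff x y).mpr ⟨hxy, by omega⟩) .nil, ?_⟩
      rw [hgd]
      simp
    · have rx := pos_range hp x
      have ry := pos_range hp y
      obtain ⟨z, hz, hz'⟩ : ∃ z, good p k₁ k₂ z ∧
          pos p k₁ k₂ z = if pos p k₁ k₂ x < pos p k₁ k₂ y then pos p k₁ k₂ x + 1
            else pos p k₁ k₂ x - 1 := by
        apply exists_pos hp
        · split_ifs <;> omega
        · split_ifs <;> omega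
      have hzy : (pos p k₁ k₂ z - pos p k₁ k₂ y).natAbs = m := by
        rw [hz']
        split_ifs <;> omega
      obtain ⟨w, hw⟩ := ih z y hzy
      have hzy' : gd z y = m := by
        unfold gd
        have hne' : pos p k₁ k₂ z ≠ pos p k₁ k₂ y := by
          intro hh
          rw [hh] at hzy
          simp at hzy
          omega
        rw [hzy, if_neg (fun hh => hne' hh.1)]
        rfl
      have hadj : (bug p k₁ k₂).Adj x z := by
        rw [adj_iff]
        constructor
        · intro hh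
          rw [← hh] at hz'
          split_ifs at hz' <;> omega
        · rw [hz']
          split_ifs <;> omega
      refine ⟨.cons hadj w, ?_⟩
      rw [hgd, SimpleGraph.Walk.length_cons]
      omega

lemma connected (hp : 3 ≤ p) : (bug p k₁ k₂).Connected := by
  have : Nonempty (BugV p k₁ k₂) := ⟨.inl ⟨0, by omega⟩⟩
  refine ⟨fun x y => ?_⟩
  obtain ⟨w, _⟩ := exists_walk hp _ x y rfl
  exact ⟨w⟩

lemma dist_le_gd (hp : 3 ≤ p) (x y : BugV p k₁ k₂) : (bug p k₁ k₂).dist x y ≤ gd x y := by
  obtain ⟨w, hw⟩ := exists_walk hp _ x y rfl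
  exact (SimpleGraph.dist_le w).trans hw

lemma pos_le_length {x y : BugV p k₁ k₂} (w : (bug p k₁ k₂).Walk x y) :
    (pos p k₁ k₂ x - pos p k₁ k₂ y).natAbs ≤ w.length := by
  induction w with
  | nil => simp
  | cons h w ih =>
    have := ((adj_iff _ _).mp h).2
    rw [SimpleGraph.Walk.length_cons]
    omega

/-- the diameter of the bug is at least `k₁ + k₂ + 2` -/
lemma le_diam (hp : 3 ≤ p) : k₁ + k₂ + 2 ≤ (bug p k₁ k₂).diam := by
  have : Nonempty (BugV p k₁ k₂) := ⟨.inl ⟨0, by omega⟩⟩
  obtain ⟨x, _, hx⟩ := exists_pos (p := p) (k₁ := k₁) (k₂ := k₂) hp (-(k₁ + 1 : ℤ)) le_rfl (by omega)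
  obtain ⟨y, _, hy⟩ := exists_pos (p := p) (k₁ := k₁) (k₂ := k₂) hp (k₂ + 1 : ℤ) (by omega) le_rfl
  have hcon := connected (k₁ := k₁) (k₂ := k₂) hp
  obtain ⟨w, hw⟩ := hcon.exists_walk_length_eq_dist x y
  have h1 := pos_le_length w
  have h2 : (bug p k₁ k₂).dist x y ≤ (bug p k₁ k₂).diam :=
    SimpleGraph.dist_le_diam (SimpleGraph.connected_iff_ediam_ne_top.mp hcon)
  rw [hx, hy, hw] at h1
  omega

lemma card_bad (_hp : 3 ≤ p) : Fintype.card (BugV p k₁ k₂) - (k₁ + k₂ + 2 + 1) = p - 3 := by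
  simp only [Fintype.card_sum, Fintype.card_fin]
  omega

lemma bad_pos (x : BugV p k₁ k₂) (hx : ¬ good p k₁ k₂ x) : pos p k₁ k₂ x = 0 := by
  rcases x with i | a | a <;> simp only [good, not_true_eq_false] at hx
  simp only [pos]
  split_ifs <;> omega

/-- The upper bound for the total distance of the bug. -/
lemma upper (hp : 3 ≤ p) :
    ∑ x, ∑ y, (bug p k₁ k₂).dist x y ≤ T (k₁ + k₂ + 2) (k₁ + 1) (p - 3) := by
  classical
  set D := k₁ + k₂ + 2 with hD
  have hex : ∀ j : ℕ, ∃ x, good p k₁ k₂ x ∧ (j ≤ D → pos p k₁ k₂ x = (j : ℤ) - (k₁ + 1)) := by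
    intro j
    by_cases hj : j ≤ D
    · obtain ⟨x, h1, h2⟩ := exists_pos (p := p) (k₁ := k₁) (k₂ := k₂) hp ((j : ℤ) - (k₁ + 1))
        (by omega) (by omega)
      exact ⟨x, h1, fun _ => h2⟩
    · exact ⟨.inl ⟨0, by omega⟩, by simp [good], fun h => absurd h hj⟩
  choose v hv1 hv2 using hex
  have hinj : Set.InjOn v (range (D + 1) : Finset ℕ) := by
    intro i hi j hj hij
    simp only [coe_range, Set.mem_Iio] at hi hj
    have h1 := hv2 i (by omega)
    have h2 := hv2 j (by omega)
    rw [hij] at h1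
    omega
  rw [split (fun x y => (bug p k₁ k₂).dist x y) v D (fun x y => SimpleGraph.dist_comm) hinj]
  unfold T
  set Q := univ \ (range (D + 1)).image v
  have hQ : Q.card = p - 3 := by rw [← card_bad (k₁ := k₁) (k₂ := k₂) hp]; exact card_compl v D hinj
  rw [← hQ]
  have hQbad : ∀ x ∈ Q, ¬ good p k₁ k₂ x := by
    intro x hx hgood
    rw [Finset.mem_sdiff] at hx
    apply hx.2
    rw [Finset.mem_image]
    have hr := pos_range hp x
    refine ⟨(pos p k₁ k₂ x + (k₁ + 1)).toNat, ?_, ?_⟩
    · rw [Finset.mem_range]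
      omega
    · apply good_inj _ _ (hv1 _) hgood
      rw [hv2 _ (by omega)]
      omega
  have b1 : ∑ i ∈ range (D + 1), ∑ j ∈ range (D + 1), (bug p k₁ k₂).dist (v i) (v j) ≤
      ∑ i ∈ range (D + 1), ∑ j ∈ range (D + 1), ad i j := by
    refine Finset.sum_le_sum fun i hi => Finset.sum_le_sum fun j hj => ?_
    rw [Finset.mem_range] at hi hj
    refine (dist_le_gd hp _ _).trans ?_
    unfold gd
    rw [if_neg, hv2 i (by omega), hv2 j (by omega)]
    · unfold ad
      omega
    · rintro ⟨h1, h2⟩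
      exact h2 (good_inj _ _ (hv1 _) (hv1 _) h1)
  have b2 : ∑ x ∈ Q, ∑ j ∈ range (D + 1), (bug p k₁ k₂).dist x (v j) ≤
      Q.card * ∑ j ∈ range (D + 1), tw (k₁ + 1) j := by
    rw [← smul_eq_mul, ← Finset.sum_const]
    refine Finset.sum_le_sum fun x hx => Finset.sum_le_sum fun j hj => ?_
    rw [Finset.mem_range] at hj
    refine (dist_le_gd hp _ _).trans ?_
    unfold gd tw ad
    rw [bad_pos x (hQbad x hx), hv2 j (by omega)]
    split_ifs <;> omega
  have b3 : ∑ x ∈ Q, ∑ y ∈ Q, (bug p k₁ k₂).dist x y ≤ Q.card * (Q.card - 1) := by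
    rw [← offDiag_const]
    refine Finset.sum_le_sum fun x hx => Finset.sum_le_sum fun y hy => ?_
    refine (dist_le_gd hp _ _).trans ?_
    unfold gd
    rw [bad_pos x (hQbad x hx), bad_pos y (hQbad y hy)]
    by_cases hxy : x = y <;> simp [hxy]
  have b2' := Nat.mul_le_mul_left 2 b2
  linarith [b1, b2', b3]

end bugs

/-! ### The ratio -/

section final

/-- The ratio of the diameter and the average distance. -/
noncomputable def ratio {V : Type} [Fintype V] [DecidableEq V] (G : SimpleGraph V) : ℝ :=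
  (G.diam : ℝ) / avgDist G

lemma sum_offDiag {V : Type} [Fintype V] [DecidableEq V] (G : SimpleGraph V) :
    ∑ p ∈ (univ : Finset V).offDiag, (G.dist p.1 p.2 : ℝ) = ((∑ x, ∑ y, G.dist x y : ℕ) : ℝ) := by
  have h1 : ∑ x, ∑ y, G.dist x y = ∑ p ∈ (univ : Finset V) ×ˢ (univ : Finset V), G.dist p.1 p.2 :=
    (Finset.sum_product' _ _ _).symm
  rw [h1, ← Finset.diag_union_offDiag, Finset.sum_union (Finset.disjoint_diag_offDiag _)]
  rw [Finset.sum_eq_zero (s := (univ : Finset V).diag), zero_add]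
  · push_cast
    rfl
  · rintro ⟨a, b⟩ h
    rw [Finset.mem_diag] at h
    rw [h.2, SimpleGraph.dist_self]

lemma ratio_eq {V : Type} [Fintype V] [DecidableEq V] (G : SimpleGraph V) (n : ℕ)
    (hn : Fintype.card V = n) :
    ratio G = (G.diam : ℝ) * ((n : ℝ) * ((n : ℝ) - 1)) / ((∑ x, ∑ y, G.dist x y : ℕ) : ℝ) := by
  unfold ratio avgDist
  rw [sum_offDiag, hn, div_div_eq_mul_div]

/-- the balanced bug of diameter `D` on `n` vertices -/
abbrev bb (n D : ℕ) : SimpleGraph (BugV (n - D + 2) ((D - 2) / 2) (D - 2 - (D - 2) / 2)) :=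
  bug (n - D + 2) ((D - 2) / 2) (D - 2 - (D - 2) / 2)

lemma total_pos {V : Type} [Fintype V] [DecidableEq V] (G : SimpleGraph V) (hG : G.Connected)
    (hV : 2 ≤ Fintype.card V) : 0 < ∑ x, ∑ y, G.dist x y := by
  obtain ⟨x, y, hxy⟩ := Fintype.exists_pair_of_one_lt_card (α := V) (by omega)
  have h1 := hG.pos_dist_of_ne hxy
  calc 0 < G.dist x y := h1
    _ ≤ ∑ y, G.dist x y := Finset.single_le_sum (f := fun y => G.dist x y) (fun _ _ => Nat.zero_le _)
        (Finset.mem_univ y)
    _ ≤ ∑ x, ∑ y, G.dist x y := Finset.single_le_sum (f := fun x => ∑ y, G.dist x y)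
        (fun _ _ => Nat.zero_le _) (Finset.mem_univ x)

lemma bb_card (n D : ℕ) (h2 : 2 ≤ D) (hD : D + 1 ≤ n) :
    Fintype.card (BugV (n - D + 2) ((D - 2) / 2) (D - 2 - (D - 2) / 2)) = n := by
  simp only [Fintype.card_sum, Fintype.card_fin]
  omega

lemma bb_ratio (n D : ℕ) (h2 : 2 ≤ D) (hD : D + 1 ≤ n) :
    (D : ℝ) * ((n : ℝ) * ((n : ℝ) - 1)) / (T D ((D - 2) / 2 + 1) (n - (D + 1)) : ℝ) ≤
      ratio (bb n D) := by
  have hp : 3 ≤ n - D + 2 := by omega
  rw [ratio_eq _ n (bb_card n D h2 hD)]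
  have h3 := le_diam (p := n - D + 2) (k₁ := (D - 2) / 2) (k₂ := D - 2 - (D - 2) / 2) hp
  have h4 := upper (p := n - D + 2) (k₁ := (D - 2) / 2) (k₂ := D - 2 - (D - 2) / 2) hp
  have e1 : (D - 2) / 2 + (D - 2 - (D - 2) / 2) + 2 = D := by omega
  have e2 : n - D + 2 - 3 = n - (D + 1) := by omega
  rw [e1] at h3 h4
  rw [e2] at h4
  have h5 : 0 < ∑ x, ∑ y, (bb n D).dist x y :=
    total_pos _ (connected hp) (by rw [bb_card n D h2 hD]; omega)
  have h6 : (D : ℝ) ≤ ((bb n D).diam : ℝ) := by exact_mod_cast h3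
  have h7 : ((∑ x, ∑ y, (bb n D).dist x y : ℕ) : ℝ) ≤ (T D ((D - 2) / 2 + 1) (n - (D + 1)) : ℝ) := by
    exact_mod_cast h4
  have h8 : (0 : ℝ) < ((∑ x, ∑ y, (bb n D).dist x y : ℕ) : ℝ) := by exact_mod_cast h5
  have h9 : (0 : ℝ) ≤ (n : ℝ) * ((n : ℝ) - 1) := by
    have : (1 : ℝ) ≤ n := by exact_mod_cast (by omega : 1 ≤ n)
    nlinarith
  apply div_le_div₀
  · positivity
  · exact mul_le_mul_of_nonneg_right h6 h9
  · exact h8
  · exact h7

lemma ratio_le {V : Type} [Fintype V] [DecidableEq V] (G : SimpleGraph V) (hG : G.Connected)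
    (n D c : ℕ) (hn : Fintype.card V = n) (h3 : 3 ≤ n) (hD : G.diam = D)
    (hc : D = 2 * c ∨ D = 2 * c + 1) :
    ratio G ≤ (D : ℝ) * ((n : ℝ) * ((n : ℝ) - 1)) / (T D c (n - (D + 1)) : ℝ) := by
  rw [ratio_eq _ n hn, hD]
  obtain ⟨h1, h2⟩ := lower G hG D c hD hc
  rw [hn] at h1 h2
  have h9 : (0 : ℝ) ≤ (n : ℝ) * ((n : ℝ) - 1) := by
    have : (1 : ℝ) ≤ n := by exact_mod_cast (by omega : 1 ≤ n)
    nlinarith
  by_cases hT : T D c (n - (D + 1)) = 0
  · -- then `D = 0`, which is impossible
    exfalso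
    have hD0 : 1 ≤ D := by
      by_contra h0
      have h0' : D = 0 := by omega
      have hne : G.ediam ≠ ⊤ := by
        have := hG.nonempty
        exact SimpleGraph.connected_iff_ediam_ne_top.mp hG
      obtain ⟨x, y, hxy⟩ := Fintype.exists_pair_of_one_lt_card (α := V) (by omega)
      have h4 := hG.pos_dist_of_ne hxy
      have h5 : G.dist x y ≤ G.diam := SimpleGraph.dist_le_diam hne
      omega
    unfold T at hT
    have h6 : ∑ i ∈ range (D + 1), ∑ j ∈ range (D + 1), ad i j = 0 := by omega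
    have h7 := (Finset.sum_eq_zero_iff.mp h6) 0 (by simp)
    have h8 := (Finset.sum_eq_zero_iff.mp h7) 1 (by simp; omega)
    simp [ad] at h8
  · apply div_le_div_of_nonneg_left
    · positivity
    · have : 0 < T D c (n - (D + 1)) := by omega
      exact_mod_cast this
    · exact_mod_cast h2

/-- The balanced bug of the same diameter is at least as good. -/
lemma ratio_le_bb {V : Type} [Fintype V] [DecidableEq V] (G : SimpleGraph V) (hG : G.Connected)
    (n D : ℕ) (hn : Fintype.card V = n) (h3 : 3 ≤ n) (hD : G.diam = D) (h2 : 2 ≤ D) :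
    D + 1 ≤ n ∧ ratio G ≤ ratio (bb n D) := by
  have hc : D = 2 * ((D - 2) / 2 + 1) ∨ D = 2 * ((D - 2) / 2 + 1) + 1 := by omega
  have h1 := (lower G hG D _ hD hc).1
  rw [hn] at h1
  exact ⟨h1, (ratio_le G hG n D _ hn h3 hD hc).trans (bb_ratio n D h2 h1)⟩

/-- Complete graphs are not better than the bug of diameter two. -/
lemma ratio_le_one {V : Type} [Fintype V] [DecidableEq V] (G : SimpleGraph V) (hG : G.Connected)
    (n : ℕ) (hn : Fintype.card V = n) (h3 : 3 ≤ n) (hD : G.diam ≤ 1) :
    ratio G ≤ ratio (bb n 2) := by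
  refine le_trans ?_ (bb_ratio n 2 le_rfl h3)
  have e1 : T 2 ((2 - 2) / 2 + 1) (n - (2 + 1)) = 8 + 6 * (n - 3) + (n - 3) * (n - 3 - 1) := by
    unfold T
    have a1 : ∑ i ∈ range (2 + 1), ∑ j ∈ range (2 + 1), ad i j = 8 := by decide
    have a2 : ∑ j ∈ range (2 + 1), tw ((2 - 2) / 2 + 1) j = 3 := by decide
    rw [a1, a2]
    ring
  have h1 : (n : ℕ) * (n - 1) ≤ ∑ x, ∑ y, G.dist x y := by
    rw [← hn, ← Finset.card_univ, ← offDiag_const]
    refine Finset.sum_le_sum fun x _ => Finset.sum_le_sum fun y _ => ?_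
    split_ifs with h
    · exact Nat.zero_le _
    · have := hG.pos_dist_of_ne h
      omega
  have h1' : (n : ℝ) * ((n : ℝ) - 1) ≤ ((∑ x, ∑ y, G.dist x y : ℕ) : ℝ) := by
    have : ((n * (n - 1) : ℕ) : ℝ) ≤ ((∑ x, ∑ y, G.dist x y : ℕ) : ℝ) := by exact_mod_cast h1
    rwa [Nat.cast_mul, Nat.cast_sub (by omega), Nat.cast_one] at this
  have hn3 : (3 : ℝ) ≤ n := by exact_mod_cast h3
  have hpos : (0 : ℝ) < (n : ℝ) * ((n : ℝ) - 1) := by nlinarith
  have hA : ratio G ≤ 1 := by
    rw [ratio_eq _ n hn, div_le_one (by linarith)]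
    have : (G.diam : ℝ) ≤ 1 := by exact_mod_cast hD
    nlinarith
  refine hA.trans ?_
  have e2 : (T 2 ((2 - 2) / 2 + 1) (n - (2 + 1)) : ℝ) = (n : ℝ) * (n - 1) + 2 := by
    obtain ⟨m, rfl⟩ := Nat.exists_eq_add_of_le h3
    rw [e1]
    have : 3 + m - 3 = m := by omega
    rw [this]
    rcases Nat.eq_zero_or_pos m with rfl | hm
    · norm_num
    · push_cast [Nat.cast_sub (show 1 ≤ m by omega)]
      ring
  rw [e2, le_div_iff₀ (by linarith)]
  push_cast
  nlinarith

/-- **MP_aedb6c_co, Q1.** For every `n ≥ 3` the maximum of the ratio of the diameter and the average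
distance over the connected graphs on `n` vertices is attained by a balanced bug on `n` vertices. -/
theorem result (n : ℕ) (hn : 3 ≤ n) :
    ∃ p k₁ k₂ : ℕ, 3 ≤ p ∧ p + k₁ + k₂ = n ∧ (k₁ ≤ k₂ + 1 ∧ k₂ ≤ k₁ + 1) ∧
      (bug p k₁ k₂).Connected ∧
      ∀ (V : Type) [Fintype V] [DecidableEq V] (G : SimpleGraph V),
        Fintype.card V = n → G.Connected →
          (G.diam : ℝ) / avgDist G ≤ ((bug p k₁ k₂).diam : ℝ) / avgDist (bug p k₁ k₂) := by
  obtain ⟨D, hD, hmax⟩ := Finset.exists_max_image (Finset.Icc 2 (n - 1)) (fun D => ratio (bb n D))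
    ⟨2, by simp; omega⟩
  rw [Finset.mem_Icc] at hD
  refine ⟨n - D + 2, (D - 2) / 2, D - 2 - (D - 2) / 2, by omega, by omega, by omega,
    connected (by omega), ?_⟩
  intro V _ _ G hV hG
  change ratio G ≤ ratio (bb n D)
  rcases Nat.lt_or_ge G.diam 2 with h | h
  · exact (ratio_le_one G hG n hV hn (by omega)).trans (hmax 2 (by simp; omega))
  · obtain ⟨h1, h2⟩ := ratio_le_bb G hG n G.diam hV hn rfl h
    exact h2.trans (hmax _ (by simp; omega))

end final

end Pool.Agent.Results.MP_aedb6c_co.BalancedBugs
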